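import Pool.Agent.Q70.MbD

/-!
# A graph matchbox manifold at infinite level with non-dense leaves at every finite level

The definitions of the transversal space `XS n`, of the traces `Orb T` of the leaves and of the
level are in `Pool.Agent.Q70.MbA`.
-/

set_option autoImplicit false

namespace Pool.Agent.Results.MP_fee8af_an.AllFiniteLevels

open Set Q70.Mb

/-- There is a graph matchbox manifold (for the free group on two generators) at infinite level
which contains, for every `k`, a non-dense leaf at level `k` (and at no other level). -/
theorem result :
    ∃ T : XS 2, (∀ k, ¬ IsLevel k (closure (Orb T))) ∧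
      ∀ k : ℕ, ∃ T' ∈ closure (Orb T), closure (Orb T') ≠ closure (Orb T) ∧
        IsLevel k (closure (Orb T')) ∧ ∀ j : ℕ, IsLevel j (closure (Orb T')) → j = k :=
  ⟨TR xs, not_level_xs, fun k => ⟨TR (sq k), sub_xs k, ne_xs k, level_sq k,
    fun j hj => level_unique j k _ hj (level_sq k)⟩⟩

end Pool.Agent.Results.MP_fee8af_an.AllFiniteLevels
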